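import Pool.Agent.TH381.RM.Defs
import Pool.Agent.TH381.Dg.Blocks

/-!
Row marker dgsm's with quadratic growth simulate the queue process of any dgsm.
-/

set_option autoImplicit false

namespace Pool.Agent.TH147.RM

open Pool.Agent.H584R2.Dg Pool.Agent.W614.Dg Pool.Agent.TH381.Dg Pool.Agent.TH381.RM

/-- Letters of the simulating dgsm. -/
inductive RL (Q S : Type)
  | start
  | mk
  | dead
  | act (q : Q) (x : S)
  | plain (x : S)
  | E

instance finRL {Q S : Type} [Finite Q] [Finite S] : Finite (RL Q S) := by
  let f : RL Q S → Fin 4 ⊕ ((Q × S) ⊕ S) := fun z => match z with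
    | .start => .inl 0
    | .mk => .inl 1
    | .dead => .inl 2
    | .E => .inl 3
    | .act q x => .inr (.inl (q, x))
    | .plain x => .inr (.inr x)
  apply Finite.of_injective f
  intro z z' h
  cases z <;> cases z' <;> simp_all [f]

/-- States of the simulating dgsm. -/
inductive RQ (Q S : Type)
  | idle
  | A (q : Q) (x : S)
  | B (q : Q) (x : S)

instance finRQ {Q S : Type} [Finite Q] [Finite S] : Finite (RQ Q S) := by
  let f : RQ Q S → Option ((Q × S) ⊕ (Q × S)) := fun z => match z with
    | .idle => none
    | .A q x => some (.inl (q, x))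
    | .B q x => some (.inr (q, x))
  apply Finite.of_injective f
  intro z z' h
  cases z <;> cases z' <;> simp_all [f]

/-- The queue part of a row. -/
def body {Q S : Type} (q : Q) : List S → List (RL Q S)
  | [] => [.E]
  | x :: v => .act q x :: (v.map .plain ++ [.E])

/-- The rows. -/
def row {Q S : Type} (n : ℕ) (c : Q × List S) : List (RL Q S) :=
  .mk :: (List.replicate n .dead ++ body c.1 c.2)

/-- The simulating dgsm. -/
def sim {S : Type} [Finite S] (τ : Dgsm S) (c : τ.Q × List S) : Dgsm (RL τ.Q S) where
  Q := RQ τ.Q S
  finQ := by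
    have := τ.finQ
    infer_instance
  init := .idle
  next := fun s z => match s, z with
    | .idle, .act q x => .A q x
    | .A q x, .plain _ => .B q x
    | .B q x, .plain _ => .B q x
    | _, _ => .idle
  out := fun s z => match s, z with
    | _, .start => .start :: row 0 c
    | _, .mk => [.mk]
    | _, .dead => [.dead]
    | _, .act _ _ => [.dead]
    | .A q x, .plain y => [.act (τ.next q x) y]
    | .B _ _, .plain y => [.plain y]
    | .idle, .plain y => [.plain y]
    | .A q x, .E => body (τ.next q x) (τ.out q x)
    | .B q x, .E => (τ.out q x).map .plain ++ [.E]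
    | .idle, .E => [.E]

section

variable {S : Type} [Finite S] {τ : Dgsm S} {c : τ.Q × List S}

omit [Finite S] in
theorem body_ne {Q : Type} (q : Q) (v : List S) : body q v ≠ [] := by
  cases v <;> simp [body]

theorem sim_nonErasing : (sim τ c).NonErasing := by
  intro s z
  rcases s with _ | ⟨q, x⟩ | ⟨q, x⟩ <;> rcases z with _ | _ | _ | ⟨q', x'⟩ | x' | _ <;>
    simp [sim, body_ne]

theorem run_dead (n : ℕ) (t : List (RL τ.Q S)) :
    (sim τ c).run .idle (List.replicate n .dead ++ t) =
      List.replicate n .dead ++ (sim τ c).run .idle t ∧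
    stAfter (sim τ c) .idle (List.replicate n .dead ++ t) = stAfter (sim τ c) .idle t := by
  induction n with
  | zero => exact ⟨rfl, rfl⟩
  | succ n ih =>
    obtain ⟨h1, h2⟩ := ih
    constructor
    · have e : (sim τ c).run .idle (List.replicate (n + 1) .dead ++ t) =
          [.dead] ++ (sim τ c).run .idle (List.replicate n .dead ++ t) := rfl
      rw [e, h1]
      rfl
    · exact h2

theorem run_B (q : τ.Q) (x : S) (v : List S) :
    (sim τ c).run (.B q x) (v.map RL.plain ++ [RL.E]) =
      (v ++ τ.out q x).map RL.plain ++ [RL.E] ∧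
    stAfter (sim τ c) (.B q x) (v.map RL.plain ++ [RL.E]) = .idle := by
  induction v with
  | nil =>
    constructor
    · show ((τ.out q x).map RL.plain ++ [RL.E]) ++ [] = _
      simp
    · rfl
  | cons y v ih =>
    obtain ⟨h1, h2⟩ := ih
    constructor
    · have e : (sim τ c).run (.B q x) ((y :: v).map RL.plain ++ [RL.E]) =
          [RL.plain y] ++ (sim τ c).run (.B q x) (v.map RL.plain ++ [RL.E]) := rfl
      rw [e, h1]
      simp
    · exact h2

theorem run_body (q : τ.Q) (x : S) (v : List S) :
    (sim τ c).run .idle (body q (x :: v)) =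
      .dead :: body (τ.next q x) (v ++ τ.out q x) ∧
    stAfter (sim τ c) .idle (body q (x :: v)) = .idle := by
  cases v with
  | nil =>
    constructor
    · show [.dead] ++ (body (τ.next q x) (τ.out q x) ++ []) = _
      simp
    · rfl
  | cons y v =>
    obtain ⟨h1, h2⟩ := run_B (τ := τ) (c := c) q x v
    constructor
    · have e : (sim τ c).run .idle (body q (x :: y :: v)) =
          [.dead] ++ ([.act (τ.next q x) y] ++ (sim τ c).run (.B q x) (v.map .plain ++ [.E])) :=
        rfl
      rw [e, h1]
      rfl
    · exact h2

theorem run_row (n : ℕ) (d : τ.Q × List S) (hd : d.2 ≠ []) :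
    (sim τ c).run .idle (row n d) = row (n + 1) (qstep τ d) ∧
    stAfter (sim τ c) .idle (row n d) = .idle := by
  obtain ⟨q, v⟩ := d
  cases v with
  | nil => exact absurd rfl hd
  | cons x v =>
    obtain ⟨h1, h2⟩ := run_dead (τ := τ) (c := c) n (body q (x :: v))
    obtain ⟨h3, h4⟩ := run_body (τ := τ) (c := c) q x v
    constructor
    · have e : (sim τ c).run .idle (row n (q, x :: v)) =
          [.mk] ++ (sim τ c).run .idle (List.replicate n .dead ++ body q (x :: v)) := rfl
      rw [e, h1, h3]
      show _ = RL.mk :: (List.replicate (n + 1) .dead ++ body (τ.next q x) (v ++ τ.out q x))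
      rw [List.replicate_succ', List.append_assoc]
      rfl
    · exact h2.trans h4

theorem sim_cb (hq : ∀ n, (qconf τ c n).2 ≠ []) (n : ℕ) :
    cb (sim τ c) .idle (row 0 c) n = (.idle, row n (qconf τ c n)) := by
  induction n with
  | zero => rfl
  | succ n ih =>
    have h := run_row (τ := τ) (c := c) n (qconf τ c n) (hq n)
    have e : cb (sim τ c) .idle (row 0 c) (n + 1) =
        (stAfter (sim τ c) (cb (sim τ c) .idle (row 0 c) n).1
          (cb (sim τ c) .idle (row 0 c) n).2,
        (sim τ c).run (cb (sim τ c) .idle (row 0 c) n).1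
          (cb (sim τ c) .idle (row 0 c) n).2) := rfl
    rw [e, ih, qconf_succ]
    exact Prod.ext h.2 h.1

/-- The decoding. -/
def dc {Q : Type} (a : S) : RL Q S → Option S
  | .start => some a
  | .act _ x => some x
  | _ => none

omit [Finite S] in
theorem filter_row {Q : Type} (a : S) (n : ℕ) (q : Q) (x : S) (v : List S) :
    (row n (q, x :: v)).filterMap (dc a) = [x] := by
  have h1 : (List.replicate n (RL.dead : RL Q S)).filterMap (dc a) = [] := by
    induction n with
    | zero => rfl
    | succ n ih => rw [List.replicate_succ, List.filterMap_cons]; exact ih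
  have h2 : (v.map (RL.plain : S → RL Q S)).filterMap (dc a) = [] := by
    induction v with
    | nil => rfl
    | cons y v ih => rw [List.map_cons, List.filterMap_cons]; exact ih
  show ([RL.mk] ++ (List.replicate n RL.dead ++ ([RL.act q x] ++
    (v.map RL.plain ++ [RL.E])))).filterMap (dc a) = [x]
  rw [List.filterMap_append, List.filterMap_append, List.filterMap_append, List.filterMap_append,
    h1, h2]
  rfl

omit [Finite S] in
theorem length_row {Q : Type} (n : ℕ) (d : Q × List S) (hd : d.2 ≠ []) :
    (row n d).length = n + 2 + d.2.length := by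
  obtain ⟨q, v⟩ := d
  cases v with
  | nil => exact absurd rfl hd
  | cons x v =>
    simp [row, body]
    omega

end

theorem comp : SComp := by
  intro S _ τ a w hne hw
  obtain ⟨u, hu, hu0, hw0, ht⟩ := trace_of_isLimit hne hw
  set c : τ.Q × List S := (τ.next τ.init a, u) with hc
  have := τ.finQ
  have hq : ∀ n, (qconf τ c n).2 ≠ [] := by
    intro n h
    have h1 := ht n
    rw [h] at h1
    simp at h1
  -- the bound for the output
  obtain ⟨K, hK⟩ : ∃ K, ∀ q x, (τ.out q x).length ≤ K := by
    obtain ⟨K, hK⟩ := (Set.finite_range (fun p : τ.Q × S => (τ.out p.1 p.2).length)).bddAbove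
    exact ⟨K, fun q x => hK ⟨(q, x), rfl⟩⟩
  have hql : ∀ n, (qconf τ c n).2.length ≤ u.length + K * n := by
    intro n
    induction n with
    | zero => simp [qconf_zero, hc]
    | succ n ih =>
      rw [qconf_succ]
      rcases h : qconf τ c n with ⟨q', v⟩
      rw [h] at ih
      cases v with
      | nil =>
        simp only [qstep, List.length_nil]
        omega
      | cons x v =>
        have := hK q' x
        simp only [qstep, List.length_append, List.length_cons] at ih ⊢
        nlinarith
  have hne' : (sim τ c).NonErasing := sim_nonErasing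
  have hout : (sim τ c).out (sim τ c).init .start = .start :: row 0 c := rfl
  have hnx : (sim τ c).next (sim τ c).init .start = .idle := rfl
  have hr0 : (row 0 c : List (RL τ.Q S)) ≠ [] := by simp [row]
  obtain ⟨w', hw'⟩ := exists_limit hne' hout hr0
  have hiter : ∀ n, (sim τ c).map^[n + 1] [.start] =
      (sim τ c).map^[n] [.start] ++ row n (qconf τ c n) := by
    intro n
    rw [(map_iter hout n).1, hnx, sim_cb hq]
  have hfil : ∀ n, ((sim τ c).map^[n] [.start]).filterMap (dc a) = pre w (n + 1) := by
    intro n
    induction n with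
    | zero =>
      rw [pre_one, hw0]
      rfl
    | succ n ih =>
      rw [hiter, List.filterMap_append, ih, pre_succ w (n + 1)]
      congr 1
      have h1 := ht n
      rcases h : qconf τ c n with ⟨q', v⟩
      rw [h] at h1
      cases v with
      | nil => simp at h1
      | cons x v =>
        simp only [List.head?_cons, Option.some.injEq] at h1
        rw [filter_row, h1]
  have hpre : ∀ n, IsPre (pre w (n + 1)) w := fun n i hi => pre_getElem w _ i hi
  obtain ⟨P, h1, h2⟩ := dec_of_filter (h := dc a) (w' := w') (w := w)
    (fun n => (sim τ c).map^[n] [.start]) (fun n => pre w (n + 1)) hw'.2.2 hpre hfil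
    (fun n => by simp)
    (by
      have := hw'.2.2 0 0 (by simp)
      have e : w' 0 = .start := by simpa using this.symm
      rw [e]
      rfl)
  have hlow : ∀ n : ℕ, n ^ 2 ≤ 2 * ((sim τ c).map^[n] [.start]).length := by
    intro n
    induction n with
    | zero => simp
    | succ n ih =>
      rw [hiter, List.length_append, length_row _ _ (hq n)]
      nlinarith
  have hup : ∀ n : ℕ, ((sim τ c).map^[n] [.start]).length ≤ (K + u.length + 3) * (n + 1) ^ 2 := by
    intro n
    induction n with
    | zero => simp
    | succ n ih =>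
      rw [hiter, List.length_append, length_row _ _ (hq n)]
      have := hql n
      nlinarith
  refine ⟨RL τ.Q S, inferInstance, sim τ c, .start, .mk, w', dc a, P, K + u.length + 3,
    K + u.length + 3, hne', hw', ⟨?_, ?_, ?_, ?_⟩, fun n => ⟨hlow n, hup n⟩, h1,
    fun k => (Nat.succ_le_of_lt (h2 k)).trans (hup k)⟩
  · intro q q'
    rcases q with _ | ⟨q, x⟩ | ⟨q, x⟩ <;> rcases q' with _ | ⟨q', x'⟩ | ⟨q', x'⟩ <;> rfl
  · intro q q'
    rfl
  · exact ⟨[], rfl⟩
  · exact ⟨List.replicate 0 .dead ++ body c.1 c.2, rfl⟩

end Pool.Agent.TH147.RM
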